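import Pool.Agent.DLF.B3
import Pool.Agent.DLF.E1

/-!
# MP_1f936f_al: a gap in the degrees over a nilpotent normal subgroup
-/

set_option autoImplicit false

namespace Pool.Agent.Results.MP_1f936f_al.DegreeGap

open Pool.Agent.DLF

/-- Let `G` be a finite group, `N` a nilpotent normal subgroup, for example the Fitting subgroup (first
clause), `cd(G|N)` (`cdOver G N`) the set of the degrees of the irreducible complex representations of `G`
that are not trivial on `N`, and `b ≥ 2`. If all degrees in `cd(G|N)`, or all prime divisors of `|N|`, are at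
least `b`, and no degree in `cd(G|N)` lies in `(b ^ k, b ^ k * D]`, then the derived subgroup of `N` with
number `6 + log₂ k` is contained in the kernel of every irreducible representation of `G` of degree at most
`D`. -/
theorem result (G : Type*) [Group G] [Finite G] :
    (∀ F : Subgroup G, F = (⨆ (N : Subgroup G) (_ : N.Normal) (_ : Group.IsNilpotent N), N) →
      F.Normal ∧ Group.IsNilpotent ↥F) ∧
    ∀ N : Subgroup G, N.Normal → Group.IsNilpotent ↥N → ∀ b : ℕ, 2 ≤ b →
      (∀ d ∈ cdOver G N, b ≤ d) ∨ (∀ p : ℕ, p.Prime → p ∣ Nat.card ↥N → b ≤ p) →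
        ∀ k D : ℕ, (∀ d ∈ cdOver G N, ¬ (b ^ k < d ∧ d ≤ b ^ k * D)) →
          ∀ x ∈ derivedSeries ↥N (6 + Nat.log 2 k),
            ∀ (d : ℕ) (ρ : G →* Matrix (Fin d) (Fin d) ℂ), Irr ρ → d ≤ D → ρ (x : G) = 1 := by
  refine ⟨fun F hF => fitting_nilpotent F hF, ?_⟩
  intro N hNn hN b hb h k D hgap x hx d ρ hρ hd
  exact block N hN b k D hb h hgap hx d ρ hρ hd

end Pool.Agent.Results.MP_1f936f_al.DegreeGap
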