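import Pool.Agent.DLR.F4

/-!
# MP_1f936f_al: reduction of the logarithmic bound to elementary abelian sections; bounded rank
-/

set_option autoImplicit false

namespace Pool.Agent.Results.MP_1f936f_al.ElementarySections

open Pool.Agent.DLF Pool.Agent.DLR

/-- Let `G` be a finite group, `N` a nilpotent normal subgroup, for example the Fitting subgroup (first
clause), and `r = |cd(G|N)|`, where `cd(G|N)` (`cdOver G N`) is the set of the degrees of the irreducible
complex representations of `G` that are not trivial on `N`. Let `N^(i)` be the `i`-th derived subgroup of `N`.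

The bottom `p`-sections `X / Y` (`LevelSec p X Y`): `X` and `Y` are normal in `G`, `X` is a `p`-group,
`X / Y` is elementary abelian, and there is an irreducible representation `ρ` of `G` such that `Y` contains
the kernel of `ρ` on `X` and all irreducible representations of `G` whose degree has a smaller `p`-part than
that of `ρ` are trivial on `X`.

Let `n ≥ 0`. Suppose that for each prime `p` dividing `|N|`, either every bottom `p`-section `X / Y` with
`X ≤ N^(n+2)` satisfies one of
* `N^(n)` centralises `X / Y`;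
* `[X, N, …, N] ≤ Y` with `2^n` factors `N` (`iterComm X N (2 ^ n)`);
* the chief length of `X / Y` in `G` is at most `2^n`;
* the order of `X / Y` is at most `p^(2^n)`;
* for some `q = p^t`, `N^(n) ≤ N^q` (`pw N q`, generated by the `q`-th powers), and the class of `N` is
  smaller than `q + 2^(n+2)` or `[X, N, …, N] ≤ Y` with `q` factors `N`;

or the Sylow `p`-subgroup `Q` of `N^(n)` is powerful (`p` odd), or has `[Q', Q] ≤ (Q')^p`
(`(Q')^4` if `p = 2`). Then `dl(N) ≤ n + 1 + ⌈log₂ (r + 2)⌉`. -/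
theorem result (G : Type*) [Group G] [Finite G] :
    (∀ F : Subgroup G, F = (⨆ (N : Subgroup G) (_ : N.Normal) (_ : Group.IsNilpotent N), N) →
      F.Normal ∧ Group.IsNilpotent ↥F) ∧
    ∀ N : Subgroup G, N.Normal → Group.IsNilpotent ↥N → ∀ n : ℕ,
      (∀ p : ℕ, p.Prime → p ∣ Nat.card ↥N →
        (∀ X Y : Subgroup G, LevelSec p X Y → X ≤ (derivedSeries ↥N (n + 2)).map N.subtype →
          ⁅X, (derivedSeries ↥N n).map N.subtype⁆ ≤ Y ∨
          iterComm X N (2 ^ n) ≤ Y ∨
          (¬ ∃ c : Fin (2 ^ n + 2) → Subgroup G,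
            StrictMono c ∧ ∀ i, (c i).Normal ∧ Y ≤ c i ∧ c i ≤ X) ∨
          Y.relIndex X ≤ p ^ 2 ^ n ∨
          ∃ t : ℕ, (derivedSeries ↥N n).map N.subtype ≤ pw N (p ^ t) ∧
            (Group.nilpotencyClass ↥N < p ^ t + 2 ^ (n + 2) ∨ iterComm X N (p ^ t) ≤ Y)) ∨
        (∀ Q : Subgroup G, Q.Normal → Q ≤ (derivedSeries ↥N n).map N.subtype → IsPGroup p ↥Q →
          ¬ p ∣ Q.relIndex ((derivedSeries ↥N n).map N.subtype) →
          (p ≠ 2 ∧ ⁅Q, Q⁆ ≤ pw Q p) ∨ ⁅⁅Q, Q⁆, Q⁆ ≤ pw ⁅Q, Q⁆ (if p = 2 then 4 else p))) →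
      derivedSeries ↥N (n + 1 + Nat.clog 2 ((cdOver G N).ncard + 2)) = ⊥ :=
  ⟨fun F hF => fitting_nilpotent F hF, fun N hNn hN n h => combined N hN n h⟩

end Pool.Agent.Results.MP_1f936f_al.ElementarySections
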