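import Pool.Agent.DLF.B3
import Pool.Agent.DLF.E1

/-!
# MP_1f936f_al: the derived length of a nilpotent normal subgroup when few degrees are large
-/

set_option autoImplicit false

namespace Pool.Agent.Results.MP_1f936f_al.FewLargeDegrees

open Pool.Agent.DLF

/-- Let `G` be a finite group, `N` a nilpotent normal subgroup, for example the Fitting subgroup (first
clause), `cd(G|N)` (`cdOver G N`) the set of the degrees of the irreducible complex representations of `G`
that are not trivial on `N`, and `b ≥ 2`. If all degrees greater than `1` in `cd(G|N)` are at least `b`, or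
all prime divisors of `|N|` are at least `b`, then `dl(N) ≤ c + 7 + log₂ (m (c + 1))` for every `m ≥ 1`,
where `c` is the number of the degrees in `cd(G|N)` that are greater than `b ^ m`. -/
theorem result (G : Type*) [Group G] [Finite G] :
    (∀ F : Subgroup G, F = (⨆ (N : Subgroup G) (_ : N.Normal) (_ : Group.IsNilpotent N), N) →
      F.Normal ∧ Group.IsNilpotent ↥F) ∧
    ∀ N : Subgroup G, N.Normal → Group.IsNilpotent ↥N → ∀ b : ℕ, 2 ≤ b →
      (∀ d ∈ cdOver G N, 1 < d → b ≤ d) ∨ (∀ p : ℕ, p.Prime → p ∣ Nat.card ↥N → b ≤ p) →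
        ∀ m : ℕ, 1 ≤ m →
          derivedSeries ↥N ({d | d ∈ cdOver G N ∧ b ^ m < d}.ncard + 7 +
            Nat.log 2 (m * ({d | d ∈ cdOver G N ∧ b ^ m < d}.ncard + 1))) = ⊥ :=
  ⟨fun F hF => fitting_nilpotent F hF, fun N _ hN b hb h m hm => bound_one N hN b m hb hm h⟩

end Pool.Agent.Results.MP_1f936f_al.FewLargeDegrees
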