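import Pool.Agent.DLF.B3
import Pool.Agent.DLF.E1

/-!
# MP_1f936f_al: the derived length of a nilpotent normal subgroup and the scales of the degrees
-/

set_option autoImplicit false

namespace Pool.Agent.Results.MP_1f936f_al.ScaleBound

open Pool.Agent.DLF

/-- Let `G` be a finite group, `N` a nilpotent normal subgroup, for example the Fitting subgroup (first
clause), `cd(G|N)` (`cdOver G N`) the set of the degrees of the irreducible complex representations of `G`
that are not trivial on `N`, and `b ≥ 2`. If all degrees greater than `1` in `cd(G|N)` are at least `b`,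
then `dl(N) ≤ 1 + s + 6 t`, where `s` is the number of the occupied scales, that is, of the `k` such that
`cd(G|N)` meets `[b^(2^k), b^(2^(k+1)))`, and `t` is the number of the occupied scales `k` for which
`k + 1` is not occupied. -/
theorem result (G : Type*) [Group G] [Finite G] :
    (∀ F : Subgroup G, F = (⨆ (N : Subgroup G) (_ : N.Normal) (_ : Group.IsNilpotent N), N) →
      F.Normal ∧ Group.IsNilpotent ↥F) ∧
    ∀ N : Subgroup G, N.Normal → Group.IsNilpotent ↥N → ∀ b : ℕ, 2 ≤ b →
      (∀ d ∈ cdOver G N, 1 < d → b ≤ d) →
        derivedSeries ↥N (1 + (scales b (cdOver G N)).ncard +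
          6 * {k | k ∈ scales b (cdOver G N) ∧ k + 1 ∉ scales b (cdOver G N)}.ncard) = ⊥ :=
  ⟨fun F hF => fitting_nilpotent F hF, fun N _ hN b hb h => bound_scales N hN b hb h⟩

end Pool.Agent.Results.MP_1f936f_al.ScaleBound
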